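import Pool.Agent.Helper20.EQ.St5

/-!
# Project EQ (MP_cb927e_an), module EVS: summation of the four alternatives
-/

set_option autoImplicit false

open MeasureTheory Set Filter Topology
open scoped ENNReal RealInnerProductSpace

namespace Pool.Agent.Helper64.EQ

open Pool.Agent.Helper68.LM (Pl BB Bd Av HL ft fm DQ)
open Pool.Agent.Helper20.RG Pool.Agent.Helper20.EQ
open Pool.Agent.Helper68.EP (elt GapP)

theorem EVS_m1 {ι : Type} [Countable ι] (q : ι → Pl → Prop) :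
    volume {x | ∃ i, q i x} ≤ ∑' i, volume {x | q i x} := by
  have h : {x | ∃ i, q i x} = ⋃ i, {x | q i x} := by
    ext x
    simp
  rw [h]
  exact measure_iUnion_le _

theorem EVS_m2 (P : Prop) [Decidable P] (q : Pl → Prop) :
    volume {x | P ∧ q x} ≤ if P then volume {x | q x} else 0 := by
  split_ifs with h
  · exact measure_mono fun x hx => hx.2
  · have : {x | P ∧ q x} = ∅ := by
      ext x
      simp [h]
    rw [this, measure_empty]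

/-- two parameters, one class, one scale -/
theorem EVS_m3 (P : ℕ → ℕ → Prop) [∀ t ρ, Decidable (P t ρ)] (q : ℕ → ℕ → ℕ → ℤ → Pl → Prop) :
    volume {x | ∃ t ρ : ℕ, P t ρ ∧ ∃ u : ℕ, 2 ≤ u ∧ ∃ k : ℤ, q t ρ u k x} ≤
      ∑' t : ℕ, ∑' ρ : ℕ, if P t ρ then
        ∑' u : ℕ, (if 2 ≤ u then ∑' k : ℤ, volume {x | q t ρ u k x} else 0) else 0 := by
  refine (EVS_m1 _).trans (ENNReal.tsum_le_tsum fun t => ?_)
  refine (EVS_m1 _).trans (ENNReal.tsum_le_tsum fun ρ => ?_)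
  refine (EVS_m2 _ _).trans ?_
  by_cases h : P t ρ
  · rw [if_pos h, if_pos h]
    refine (EVS_m1 _).trans (ENNReal.tsum_le_tsum fun u => ?_)
    refine (EVS_m2 _ _).trans ?_
    by_cases hu : 2 ≤ u
    · rw [if_pos hu, if_pos hu]
      exact EVS_m1 _
    · rw [if_neg hu, if_neg hu]
  · rw [if_neg h, if_neg h]

/-- two parameters, two classes, one scale -/
theorem EVS_m4 (P : ℕ → ℕ → Prop) [∀ t ρ, Decidable (P t ρ)]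
    (Q : ℕ → ℕ → ℕ → ℕ → Prop) [∀ t ρ u s, Decidable (Q t ρ u s)]
    (q : ℕ → ℕ → ℕ → ℕ → ℤ → Pl → Prop) :
    volume {x | ∃ t ρ : ℕ, P t ρ ∧ ∃ u s : ℕ, Q t ρ u s ∧ ∃ k : ℤ, q t ρ u s k x} ≤
      ∑' t : ℕ, ∑' ρ : ℕ, if P t ρ then
        ∑' (u : ℕ) (s : ℕ), (if Q t ρ u s then ∑' k : ℤ, volume {x | q t ρ u s k x} else 0)
          else 0 := by
  refine (EVS_m1 _).trans (ENNReal.tsum_le_tsum fun t => ?_)
  refine (EVS_m1 _).trans (ENNReal.tsum_le_tsum fun ρ => ?_)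
  refine (EVS_m2 _ _).trans ?_
  by_cases h : P t ρ
  · rw [if_pos h, if_pos h]
    refine (EVS_m1 _).trans (ENNReal.tsum_le_tsum fun u => ?_)
    refine (EVS_m1 _).trans (ENNReal.tsum_le_tsum fun s => ?_)
    refine (EVS_m2 _ _).trans ?_
    by_cases hu : Q t ρ u s
    · rw [if_pos hu, if_pos hu]
      exact EVS_m1 _
    · rw [if_neg hu, if_neg hu]
  · rw [if_neg h, if_neg h]

/-- exchange of the sums -/
theorem EVS_sum (w : ℤ → ℝ≥0∞) (V : ℤ → ℕ → ℕ → ℝ≥0∞) (P : ℕ → ℕ → Prop)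
    [∀ t ρ, Decidable (P t ρ)] (b : ℕ → ℕ → ℝ≥0∞) (I K : ℝ≥0∞)
    (hV : ∀ t ρ, P t ρ → ∑' l : ℤ, w l * V l t ρ ≤ b t ρ * I)
    (hb : ∑' t : ℕ, ∑' ρ : ℕ, (if P t ρ then b t ρ else 0) ≤ K) :
    ∑' l : ℤ, w l * ∑' t : ℕ, ∑' ρ : ℕ, (if P t ρ then V l t ρ else 0) ≤ K * I := by
  have h1 : ∑' l : ℤ, w l * ∑' t : ℕ, ∑' ρ : ℕ, (if P t ρ then V l t ρ else 0) =
      ∑' t : ℕ, ∑' ρ : ℕ, ∑' l : ℤ, w l * (if P t ρ then V l t ρ else 0) := by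
    calc ∑' l : ℤ, w l * ∑' t : ℕ, ∑' ρ : ℕ, (if P t ρ then V l t ρ else 0)
        = ∑' l : ℤ, ∑' t : ℕ, ∑' ρ : ℕ, w l * (if P t ρ then V l t ρ else 0) := by
          refine tsum_congr fun l => ?_
          rw [← ENNReal.tsum_mul_left]
          exact tsum_congr fun t => (ENNReal.tsum_mul_left).symm
      _ = ∑' t : ℕ, ∑' l : ℤ, ∑' ρ : ℕ, w l * (if P t ρ then V l t ρ else 0) :=
          ENNReal.tsum_comm
      _ = _ := tsum_congr fun t => ENNReal.tsum_comm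
  rw [h1]
  calc ∑' t : ℕ, ∑' ρ : ℕ, ∑' l : ℤ, w l * (if P t ρ then V l t ρ else 0)
      ≤ ∑' t : ℕ, ∑' ρ : ℕ, (if P t ρ then b t ρ else 0) * I := by
        refine ENNReal.tsum_le_tsum fun t => ENNReal.tsum_le_tsum fun ρ => ?_
        by_cases h : P t ρ
        · simp only [if_pos h]
          exact hV t ρ h
        · simp only [if_neg h, mul_zero, tsum_zero, zero_mul, le_refl]
    _ = (∑' t : ℕ, ∑' ρ : ℕ, (if P t ρ then b t ρ else 0)) * I := by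
        rw [← ENNReal.tsum_mul_right]
        exact tsum_congr fun t => ENNReal.tsum_mul_right
    _ ≤ K * I := by gcongr

theorem EVS_add4 (w a b c d : ℤ → ℝ≥0∞) :
    ∑' l : ℤ, w l * (a l + b l + c l + d l) =
      (∑' l : ℤ, w l * a l) + (∑' l : ℤ, w l * b l) + (∑' l : ℤ, w l * c l) +
        ∑' l : ℤ, w l * d l := by
  rw [← ENNReal.tsum_add, ← ENNReal.tsum_add, ← ENNReal.tsum_add]
  exact tsum_congr fun l => by rw [mul_add, mul_add, mul_add]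

theorem EVS_g1 (a : ℝ) (ha : 0 < a) : ∃ K : ℝ, 0 ≤ K ∧
    ∑' t : ℕ, ENNReal.ofReal ((2 : ℝ) ^ (-(a * t))) = ENNReal.ofReal K := by
  have he : ∀ t : ℕ, (2 : ℝ) ^ (-(a * t)) = ((2 : ℝ) ^ (-a)) ^ t := by
    intro t
    rw [← Real.rpow_mul_natCast (by norm_num)]
    congr 1
    ring
  have hr : (2 : ℝ) ^ (-a) < 1 :=
    Real.rpow_lt_one_of_one_lt_of_neg (by norm_num) (by linarith)
  have hs : Summable (fun t : ℕ => (2 : ℝ) ^ (-(a * t))) := by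
    simp_rw [he]
    exact summable_geometric_of_lt_one (by positivity) hr
  refine ⟨∑' t : ℕ, (2 : ℝ) ^ (-(a * t)), tsum_nonneg fun u => by positivity, ?_⟩
  rw [ENNReal.ofReal_tsum_of_nonneg (fun u => by positivity) hs]

/-- double geometric sums -/
theorem EVS_b (a b : ℝ) (ha : 0 < a) (hb : 0 < b) : ∃ K : ℝ, 0 ≤ K ∧
    ∀ (c d : ℝ) (P : ℕ → ℕ → Prop) [∀ t ρ, Decidable (P t ρ)] (e : ℕ → ℕ → ℝ), 0 ≤ c →
      (∀ t ρ, P t ρ → e t ρ ≤ d - (a * t + b * ρ)) →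
      ∑' t : ℕ, ∑' ρ : ℕ, (if P t ρ then ENNReal.ofReal (c * (2 : ℝ) ^ (e t ρ)) else 0) ≤
        ENNReal.ofReal (c * (2 : ℝ) ^ d * K) := by
  obtain ⟨K₁, hK₁, h₁⟩ := EVS_g1 a ha
  obtain ⟨K₂, hK₂, h₂⟩ := EVS_g1 b hb
  refine ⟨K₁ * K₂, by positivity, ?_⟩
  intro c d P _ e hc he
  have key : ∀ t ρ : ℕ, (if P t ρ then ENNReal.ofReal (c * (2 : ℝ) ^ (e t ρ)) else 0) ≤
      ENNReal.ofReal (c * (2 : ℝ) ^ d) * ENNReal.ofReal ((2 : ℝ) ^ (-(a * t))) *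
        ENNReal.ofReal ((2 : ℝ) ^ (-(b * ρ))) := by
    intro t ρ
    by_cases h : P t ρ
    · rw [if_pos h, ← ENNReal.ofReal_mul (by positivity), ← ENNReal.ofReal_mul (by positivity)]
      refine ENNReal.ofReal_le_ofReal ?_
      rw [mul_assoc, mul_assoc, ← Real.rpow_add (by norm_num), ← Real.rpow_add (by norm_num)]
      refine mul_le_mul_of_nonneg_left ?_ hc
      refine Real.rpow_le_rpow_of_exponent_le (by norm_num) ?_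
      have := he t ρ h
      linarith
    · rw [if_neg h]
      exact bot_le
  calc ∑' t : ℕ, ∑' ρ : ℕ, (if P t ρ then ENNReal.ofReal (c * (2 : ℝ) ^ (e t ρ)) else 0)
      ≤ ∑' t : ℕ, ∑' ρ : ℕ, ENNReal.ofReal (c * (2 : ℝ) ^ d) *
        ENNReal.ofReal ((2 : ℝ) ^ (-(a * t))) * ENNReal.ofReal ((2 : ℝ) ^ (-(b * ρ))) :=
        ENNReal.tsum_le_tsum fun t => ENNReal.tsum_le_tsum fun ρ => key t ρ
    _ = ENNReal.ofReal (c * (2 : ℝ) ^ d) * (∑' t : ℕ, ENNReal.ofReal ((2 : ℝ) ^ (-(a * t)))) *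
        ∑' ρ : ℕ, ENNReal.ofReal ((2 : ℝ) ^ (-(b * ρ))) := by
        rw [← ENNReal.tsum_mul_left (a := ENNReal.ofReal (c * (2 : ℝ) ^ d)),
          ← ENNReal.tsum_mul_right]
        exact tsum_congr fun t => ENNReal.tsum_mul_left
    _ = ENNReal.ofReal (c * (2 : ℝ) ^ d * (K₁ * K₂)) := by
        rw [h₁, h₂, ← ENNReal.ofReal_mul (by positivity), ← ENNReal.ofReal_mul (by positivity)]
        congr 1
        ring

theorem hEVS (hPIG : StPIG) (hONE : StONE) (hHBS : StHBS) (hHAS : StHAS) : StEVS := by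
  intro φ τ A p c hG hA hgap hp2 hp3
  have hp20 : 0 < p - 2 := by linarith
  obtain ⟨Cρ, hCρ⟩ : ∃ Cρ : ℕ, 1 ≤ Cρ ∧ 2 * (p + 1) ≤ (p - 2) * Cρ := by
    obtain ⟨n, hn⟩ := exists_nat_ge (2 * (p + 1) / (p - 2))
    refine ⟨n + 1, by omega, ?_⟩
    rw [div_le_iff₀ hp20] at hn
    push_cast
    linarith
  obtain ⟨hCρ1, hCρ2⟩ := hCρ
  have hCρ1' : (1 : ℝ) ≤ Cρ := by exact_mod_cast hCρ1
  have he1 : 0 < e1 p := by unfold e1; linarith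
  obtain ⟨CO, hCO, hO⟩ := hONE φ τ A p c hG hA hgap hp2 hp3
  obtain ⟨CH, C₂, hCH, hC₂, hH⟩ := hHBS φ τ A p c hG hA hgap hp2 hp3
  obtain ⟨CA, t₁, hCA, hAS⟩ := hHAS φ τ A p c hG hA hgap hp2 hp3 Cρ
  obtain ⟨t₀, ht₀, hP⟩ := hPIG φ τ p c hG hp2 hp3 C₂ Cρ t₁ hC₂
  obtain ⟨K₁, hK₁, hb₁⟩ := EVS_b p (p - 2) (by linarith) hp20
  obtain ⟨K₂, hK₂, hb₂⟩ := EVS_b 1 ((p - 2) / 2) one_pos (by linarith)
  obtain ⟨K₃, hK₃, hb₃⟩ := EVS_b 1 1 one_pos one_pos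
  obtain ⟨K₄, hK₄, hb₄⟩ := EVS_b (e1 p / 4) (e1 p / (4 * Cρ)) (by linarith) (by positivity)
  obtain ⟨B₁, hB₁⟩ : ∃ B, B = CO * (2 : ℝ) ^ (p * (t₀ : ℝ)) * K₁ := ⟨_, rfl⟩
  obtain ⟨B₂, hB₂⟩ : ∃ B, B = CO * (2 : ℝ) ^ (0 : ℝ) * K₂ := ⟨_, rfl⟩
  obtain ⟨B₃, hB₃⟩ : ∃ B, B = CH * (2 : ℝ) ^ (0 : ℝ) * K₃ := ⟨_, rfl⟩
  obtain ⟨B₄, hB₄⟩ : ∃ B, B = CA * (2 : ℝ) ^ (0 : ℝ) * K₄ := ⟨_, rfl⟩
  have hB₁0 : 0 ≤ B₁ := by rw [hB₁]; positivity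
  have hB₂0 : 0 ≤ B₂ := by rw [hB₂]; positivity
  have hB₃0 : 0 ≤ B₃ := by rw [hB₃]; positivity
  have hB₄0 : 0 ≤ B₄ := by rw [hB₄]; positivity
  refine ⟨CH + CA + B₁ + B₂ + B₃ + B₄, by linarith, ?_⟩
  intro R₀ f hR₀ hf hf0
  obtain ⟨I, hI⟩ : ∃ I, I = ∫⁻ x, ENNReal.ofReal (f x) ^ p := ⟨_, rfl⟩
  rw [← hI]
  -- the four sums
  have s1 := EVS_sum (fun l : ℤ => ENNReal.ofReal ((2 : ℝ) ^ (p * l)))
    (fun l n ρ => ∑' u : ℕ, (if 2 ≤ u then ∑' k : ℤ,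
      volume {x | (Hh c φ τ u ρ k (lev f (l - ((t₀ : ℤ) - (n : ℤ)) + u + ρ)) x).Nonempty} else 0))
    (fun _ _ => True)
    (fun n ρ => ENNReal.ofReal (CO * (2 : ℝ) ^ (p * (((t₀ : ℤ) - (n : ℤ) : ℤ) : ℝ) - (p - 2) * ρ)))
    I (ENNReal.ofReal B₁) (fun n ρ _ => by
      rw [hI]
      exact hO ((t₀ : ℤ) - (n : ℤ)) ρ f hf hf0) (by
      rw [hB₁]
      refine hb₁ CO (p * (t₀ : ℝ)) (fun _ _ => True) _ hCO.le fun n ρ _ => ?_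
      push_cast
      linarith)
  have s2 := EVS_sum (fun l : ℤ => ENNReal.ofReal ((2 : ℝ) ^ (p * l)))
    (fun l t ρ => ∑' u : ℕ, (if 2 ≤ u then ∑' k : ℤ,
      volume {x | (Hh c φ τ u ρ k (lev f (l - (t : ℤ) + u + ρ)) x).Nonempty} else 0))
    (fun t ρ => t₀ ≤ t ∧ Cρ * t ≤ ρ)
    (fun t ρ => ENNReal.ofReal (CO * (2 : ℝ) ^ (p * (((t : ℤ) : ℤ) : ℝ) - (p - 2) * ρ)))
    I (ENNReal.ofReal B₂) (fun t ρ _ => by
      rw [hI]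
      exact hO (t : ℤ) ρ f hf hf0) (by
      rw [hB₂]
      refine hb₂ CO 0 (fun t ρ => t₀ ≤ t ∧ Cρ * t ≤ ρ) _ hCO.le fun t ρ h => ?_
      have h1 : (Cρ : ℝ) * t ≤ ρ := by exact_mod_cast h.2
      have h2 : (0 : ℝ) ≤ t := Nat.cast_nonneg _
      push_cast
      have h3 : (p - 2) * ((Cρ : ℝ) * t) ≤ (p - 2) * ρ := mul_le_mul_of_nonneg_left h1 hp20.le
      have h4 : 2 * (p + 1) * t ≤ (p - 2) * Cρ * t := mul_le_mul_of_nonneg_right hCρ2 h2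
      linarith)
  have s3 := EVS_sum (fun l : ℤ => ENNReal.ofReal ((2 : ℝ) ^ (p * l)))
    (fun l t ρ => ∑' (u : ℕ) (s : ℕ),
        (if C₂ * (t + ρ + 1) ≤ u ∧ C₂ * (t + ρ + 1) ≤ s then
          ∑' k : ℤ, volume {x | Gd R₀ l f x ∧ (Hh c φ τ u ρ k (lev f (l - t + u + ρ)) x).Nonempty ∧
            (Hh c φ τ (u + s) ρ k (lev f (l - t + (u + s) + ρ)) x).Nonempty} else 0))
    (fun t ρ => t₀ ≤ t ∧ ρ ≤ Cρ * t)
    (fun t ρ => ENNReal.ofReal (CH * (2 : ℝ) ^ (-((t : ℝ) + ρ))))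
    I (ENNReal.ofReal B₃) (fun t ρ _ => by
      rw [hI]
      exact hH R₀ t ρ f (by linarith) hf hf0) (by
      rw [hB₃]
      refine hb₃ CH 0 (fun t ρ => t₀ ≤ t ∧ ρ ≤ Cρ * t) _ (by linarith) fun t ρ h => ?_
      linarith)
  have s4 := EVS_sum (fun l : ℤ => ENNReal.ofReal ((2 : ℝ) ^ (p * l)))
    (fun l t ρ => ∑' u : ℕ, (if 2 ≤ u then ∑' k : ℤ,
      volume {x | Gd R₀ l f x ∧ (2 : ℝ) ^ ((1 - e1 p) * t) ≤
          ((Hh c φ τ u ρ k (lev f (l - t + u + ρ)) x).ncard : ℝ)} else 0))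
    (fun t ρ => t₀ ≤ t ∧ ρ ≤ Cρ * t)
    (fun t ρ => ENNReal.ofReal (CA * (2 : ℝ) ^ (-(e1 p / 2 * t))))
    I (ENNReal.ofReal B₄) (fun t ρ h => by
      rw [hI]
      exact hAS R₀ t ρ f (by linarith) (ht₀.trans h.1) h.2 hf hf0) (by
      rw [hB₄]
      refine hb₄ CA 0 (fun t ρ => t₀ ≤ t ∧ ρ ≤ Cρ * t) _ (by linarith) fun t ρ h => ?_
      have h1 : (ρ : ℝ) ≤ Cρ * t := by exact_mod_cast h.2
      have h3 : e1 p / (4 * Cρ) * ρ ≤ e1 p / (4 * Cρ) * (Cρ * t) :=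
        mul_le_mul_of_nonneg_left h1 (by positivity)
      have h4 : e1 p / (4 * Cρ) * (Cρ * t) = e1 p / 4 * t := by
        field_simp
      linarith)
  -- the measure of the set
  have hm : ∀ l : ℤ, volume {x | Gd R₀ l f x ∧ ∃ k : ℤ,
        ENNReal.ofReal ((2 : ℝ) ^ l) ≤
          ∑' u : ℕ, (if 2 ≤ u then Ht c φ τ u k (fh l f) x else 0)} ≤
      volume {x | ∃ n ρ : ℕ, True ∧ ∃ u : ℕ, 2 ≤ u ∧ ∃ k : ℤ,
        (Hh c φ τ u ρ k (lev f (l - ((t₀ : ℤ) - (n : ℤ)) + u + ρ)) x).Nonempty} +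
      volume {x | ∃ t ρ : ℕ, (t₀ ≤ t ∧ Cρ * t ≤ ρ) ∧ ∃ u : ℕ, 2 ≤ u ∧ ∃ k : ℤ,
        (Hh c φ τ u ρ k (lev f (l - (t : ℤ) + u + ρ)) x).Nonempty} +
      volume {x | ∃ t ρ : ℕ, (t₀ ≤ t ∧ ρ ≤ Cρ * t) ∧ ∃ u s : ℕ,
        (C₂ * (t + ρ + 1) ≤ u ∧ C₂ * (t + ρ + 1) ≤ s) ∧ ∃ k : ℤ,
          Gd R₀ l f x ∧ (Hh c φ τ u ρ k (lev f (l - t + u + ρ)) x).Nonempty ∧
            (Hh c φ τ (u + s) ρ k (lev f (l - t + (u + s) + ρ)) x).Nonempty} +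
      volume {x | ∃ t ρ : ℕ, (t₀ ≤ t ∧ ρ ≤ Cρ * t) ∧ ∃ u : ℕ, 2 ≤ u ∧ ∃ k : ℤ,
        Gd R₀ l f x ∧ (2 : ℝ) ^ ((1 - e1 p) * t) ≤
          ((Hh c φ τ u ρ k (lev f (l - t + u + ρ)) x).ncard : ℝ)} := by
    intro l
    refine le_trans (measure_mono ?_) ((measure_union_le _ _).trans
      (add_le_add ((measure_union_le _ _).trans
        (add_le_add (measure_union_le _ _) le_rfl)) le_rfl))
    rintro x ⟨hx, k, hk⟩
    rcases hP f l k x hf hf0 hk with ⟨t, ρ, u, h1, h2, h3⟩ | ⟨t, ρ, u, h1, h2, h3, h4⟩ |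
      ⟨t, ρ, u, s, h1, h2, h3, h4, h5, h6⟩ | ⟨t, ρ, u, h1, h2, h3, h4⟩
    · left; left; left
      refine ⟨((t₀ : ℤ) - t).toNat, ρ, trivial, u, h2, k, ?_⟩
      have : (t₀ : ℤ) - ((((t₀ : ℤ) - t).toNat : ℕ) : ℤ) = t := by omega
      rw [this]
      exact h3
    · left; left; right
      exact ⟨t, ρ, ⟨h1, h2⟩, u, h3, k, h4⟩
    · left; right
      exact ⟨t, ρ, ⟨h1, h2⟩, u, s, ⟨h3, h4⟩, k, hx, h5, h6⟩
    · right
      exact ⟨t, ρ, ⟨h1, h2⟩, u, h3, k, hx, h4⟩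
  have hm' := fun l : ℤ => (hm l).trans (add_le_add (add_le_add (add_le_add
    (EVS_m3 (fun _ _ => True) (fun n ρ u k x =>
      (Hh c φ τ u ρ k (lev f (l - ((t₀ : ℤ) - (n : ℤ)) + u + ρ)) x).Nonempty))
    (EVS_m3 (fun t ρ => t₀ ≤ t ∧ Cρ * t ≤ ρ) (fun t ρ u k x =>
      (Hh c φ τ u ρ k (lev f (l - (t : ℤ) + u + ρ)) x).Nonempty)))
    (EVS_m4 (fun t ρ => t₀ ≤ t ∧ ρ ≤ Cρ * t)
      (fun t ρ u s => C₂ * (t + ρ + 1) ≤ u ∧ C₂ * (t + ρ + 1) ≤ s) (fun t ρ u s k x =>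
      Gd R₀ l f x ∧ (Hh c φ τ u ρ k (lev f (l - t + u + ρ)) x).Nonempty ∧
            (Hh c φ τ (u + s) ρ k (lev f (l - t + (u + s) + ρ)) x).Nonempty)))
    (EVS_m3 (fun t ρ => t₀ ≤ t ∧ ρ ≤ Cρ * t) (fun t ρ u k x =>
      Gd R₀ l f x ∧ (2 : ℝ) ^ ((1 - e1 p) * t) ≤
          ((Hh c φ τ u ρ k (lev f (l - t + u + ρ)) x).ncard : ℝ))))
  refine (ENNReal.tsum_le_tsum fun l => mul_le_mul_right (hm' l) _).trans ?_
  refine (le_of_eq (EVS_add4 _ _ _ _ _)).trans ?_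
  refine (add_le_add (add_le_add (add_le_add s1 s2) s3) s4).trans ?_
  rw [← add_mul, ← add_mul, ← add_mul, ← ENNReal.ofReal_add hB₁0 hB₂0,
    ← ENNReal.ofReal_add (by positivity) hB₃0, ← ENNReal.ofReal_add (by positivity) hB₄0]
  refine mul_le_mul_left (ENNReal.ofReal_le_ofReal ?_) _
  linarith

end Pool.Agent.Helper64.EQ
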