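import Pool.Agent.Helper20.EQ.St3

/-!
# Project EQ (MP_cb927e_an), module FWS: few hits in one class, summation
-/

set_option autoImplicit false

open MeasureTheory Set Filter Topology
open scoped ENNReal RealInnerProductSpace

namespace Pool.Agent.Helper64.EQ

open Pool.Agent.Helper68.LM (Pl BB Bd Av HL ft fm DQ)
open Pool.Agent.Helper20.RG Pool.Agent.Helper20.EQ
open Pool.Agent.Helper68.EP (elt GapP)

theorem FWS_thr (K δ : ℝ) (hδ : 0 < δ) :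
    ∃ t₀ : ℕ, 5 ≤ t₀ ∧ ∀ t : ℕ, t₀ ≤ t → K * t ≤ (2 : ℝ) ^ (δ * t) := by
  have hr : 1 < (2 : ℝ) ^ δ := Real.one_lt_rpow (by norm_num) hδ
  have h1 := tendsto_pow_const_div_const_pow_of_one_lt 1 hr
  have hK : 0 < 1 / (|K| + 1) := by positivity
  have h2 := h1.eventually (gt_mem_nhds hK)
  obtain ⟨N, hN⟩ := Filter.eventually_atTop.1 h2
  refine ⟨max 5 N, le_max_left _ _, fun t ht => ?_⟩
  have h3 := hN t (le_trans (le_max_right _ _) ht)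
  have hp : 0 < ((2 : ℝ) ^ δ) ^ t := by positivity
  rw [pow_one, div_lt_div_iff₀ hp (by positivity)] at h3
  rw [Real.rpow_mul_natCast (by norm_num)]
  have h4 : K * t ≤ |K| * t := mul_le_mul_of_nonneg_right (le_abs_self K) (Nat.cast_nonneg _)
  have h5 : (0 : ℝ) ≤ t := Nat.cast_nonneg _
  nlinarith

theorem FWS_geo : ∃ C : ℝ, 0 ≤ C ∧
    ∑' u : ℕ, ENNReal.ofReal ((2 : ℝ) ^ (-((u : ℝ) / 8))) ≤ ENNReal.ofReal C := by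
  have he : ∀ u : ℕ, (2 : ℝ) ^ (-((u : ℝ) / 8)) = ((2 : ℝ) ^ (-(1 / 8) : ℝ)) ^ u := by
    intro u
    rw [← Real.rpow_mul_natCast (by norm_num)]
    congr 1
    ring
  have hr : (2 : ℝ) ^ (-(1 / 8) : ℝ) < 1 :=
    Real.rpow_lt_one_of_one_lt_of_neg (by norm_num) (by norm_num)
  have hs : Summable (fun u : ℕ => (2 : ℝ) ^ (-((u : ℝ) / 8))) := by
    simp_rw [he]
    exact summable_geometric_of_lt_one (by positivity) hr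
  refine ⟨∑' u : ℕ, (2 : ℝ) ^ (-((u : ℝ) / 8)), tsum_nonneg fun u => by positivity, ?_⟩
  rw [ENNReal.ofReal_tsum_of_nonneg (fun u => by positivity) hs]

/-- the first number -/
theorem FWS_num1 (p ε C₁ C₃ : ℝ) (t ρ : ℕ) (hp2 : 2 < p) (hp3 : p < 3) (hε : ε ≤ 1 / 100)
    (hC₁ : 0 ≤ C₁) (hC₃ : 0 ≤ C₃) :
    (2 : ℝ) ^ (p * ((t : ℝ) - ρ)) * (C₁ * (4 : ℝ) ^ ρ / (2 : ℝ) ^ ((1 - ε) * t) *
      (C₃ * ((ρ + 1 : ℕ) : ℝ) * ((2 : ℝ) ^ ((1 - ε) * t) / 8) ^ (-(p ^ 2 / (p + 1))))) ≤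
      512 * C₁ * C₃ * (1 + 1 / ((p - 2) * Real.log 2)) * (2 : ℝ) ^ (-((t : ℝ) / 16)) := by
  have h2 : (0 : ℝ) < 2 := by norm_num
  have hl : 0 < Real.log 2 := Real.log_pos (by norm_num)
  have ht : (0 : ℝ) ≤ t := Nat.cast_nonneg _
  have hρ : (0 : ℝ) ≤ ρ := Nat.cast_nonneg _
  have hp1 : 0 < p + 1 := by linarith
  obtain ⟨q, hq⟩ : ∃ q, q = p ^ 2 / (p + 1) := ⟨_, rfl⟩
  have hq' : q * (p + 1) = p ^ 2 := by rw [hq]; field_simp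
  have hq0 : 0 ≤ q := by rw [hq]; positivity
  have hq3 : q ≤ 3 := by
    rw [hq, div_le_iff₀ hp1]
    nlinarith
  rw [← hq]
  -- the factor with rho
  have e1 : ((ρ + 1 : ℕ) : ℝ) ≤ (1 + 1 / ((p - 2) * Real.log 2)) * (2 : ℝ) ^ ((p - 2) * ρ) := by
    have h3 : 1 + (p - 2) * ρ * Real.log 2 ≤ (2 : ℝ) ^ ((p - 2) * ρ) := by
      rw [Real.rpow_def_of_pos h2]
      have := Real.add_one_le_exp (Real.log 2 * ((p - 2) * ρ))
      linarith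
    have h4 : 0 < 1 + 1 / ((p - 2) * Real.log 2) := by
      have : 0 < p - 2 := by linarith
      positivity
    refine le_trans ?_ (mul_le_mul_of_nonneg_left h3 h4.le)
    have h5 : 0 < (p - 2) * Real.log 2 := mul_pos (by linarith) hl
    have h6 : 1 / ((p - 2) * Real.log 2) * ((p - 2) * Real.log 2) = 1 :=
      one_div_mul_cancel h5.ne'
    have h7 : 0 < 1 / ((p - 2) * Real.log 2) := by positivity
    push_cast
    generalize 1 / ((p - 2) * Real.log 2) = a at *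
    have h8 : (1 + a) * (1 + (p - 2) * ρ * Real.log 2) =
        1 + a + ρ * ((p - 2) * Real.log 2) + ρ * (a * ((p - 2) * Real.log 2)) := by ring
    rw [h8, h6]
    have h9 : 0 ≤ (ρ : ℝ) * ((p - 2) * Real.log 2) := by positivity
    linarith
  have e2 : (8 : ℝ) ^ q ≤ 512 := by
    calc (8 : ℝ) ^ q ≤ (8 : ℝ) ^ (3 : ℝ) := Real.rpow_le_rpow_of_exponent_le (by norm_num) hq3
      _ = 512 := by
        rw [show (3 : ℝ) = ((3 : ℕ) : ℝ) by norm_num, Real.rpow_natCast]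
        norm_num
  have e3 : ((2 : ℝ) ^ ((1 - ε) * t) / 8) ^ (-q) =
      (2 : ℝ) ^ (-((1 - ε) * t * q)) * (8 : ℝ) ^ q := by
    rw [Real.div_rpow (by positivity) (by norm_num), ← Real.rpow_mul h2.le, Real.rpow_neg
      (by norm_num : (0 : ℝ) ≤ 8), div_inv_eq_mul]
    congr 2
    ring
  have e4 : (4 : ℝ) ^ ρ = (2 : ℝ) ^ (2 * (ρ : ℝ)) := by
    rw [Real.rpow_mul h2.le, Real.rpow_natCast]
    congr 1
    norm_num
  have e5 : p * t - (1 - ε) * t - (1 - ε) * t * q ≤ -(t / 16) := by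
    have h3 : p - (1 - ε) - (1 - ε) * q ≤ -(1 / 16) := by
      -- multiply by p + 1
      have h4 : (p - (1 - ε) - (1 - ε) * q) * (p + 1) = -1 + ε * (p + 1 + p ^ 2) := by
        have : (p - (1 - ε) - (1 - ε) * q) * (p + 1) =
          p * (p + 1) - (1 - ε) * (p + 1) - (1 - ε) * (q * (p + 1)) := by ring
        rw [this, hq']
        ring
      have h5 : -1 + ε * (p + 1 + p ^ 2) ≤ -(1 / 16) * (p + 1) := by
        have h6 : ε * (p + 1 + p ^ 2) ≤ 1 / 100 * (p + 1 + p ^ 2) :=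
          mul_le_mul_of_nonneg_right hε (by positivity)
        nlinarith
      rw [← h4] at h5
      exact le_of_mul_le_mul_right h5 hp1
    nlinarith
  have e6 : (2 : ℝ) ^ (p * ((t : ℝ) - ρ)) * (C₁ * (4 : ℝ) ^ ρ / (2 : ℝ) ^ ((1 - ε) * t) *
      (C₃ * ((ρ + 1 : ℕ) : ℝ) * ((2 : ℝ) ^ (-((1 - ε) * t * q)) * (8 : ℝ) ^ q))) =
      C₁ * C₃ * (8 : ℝ) ^ q * (((ρ + 1 : ℕ) : ℝ) * (2 : ℝ) ^ (-((p - 2) * ρ))) *
        (2 : ℝ) ^ (p * t - (1 - ε) * t - (1 - ε) * t * q) := by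
    have h3 : (2 : ℝ) ^ (p * ((t : ℝ) - ρ)) * (2 : ℝ) ^ (2 * (ρ : ℝ)) *
        (2 : ℝ) ^ (-((1 - ε) * t)) * (2 : ℝ) ^ (-((1 - ε) * t * q)) =
        (2 : ℝ) ^ (-((p - 2) * ρ)) * (2 : ℝ) ^ (p * t - (1 - ε) * t - (1 - ε) * t * q) := by
      rw [← Real.rpow_add h2, ← Real.rpow_add h2, ← Real.rpow_add h2, ← Real.rpow_add h2]
      congr 1
      ring
    rw [e4, div_eq_mul_inv, ← Real.rpow_neg h2.le]
    calc _ = C₁ * C₃ * (8 : ℝ) ^ q * ((ρ + 1 : ℕ) : ℝ) * ((2 : ℝ) ^ (p * ((t : ℝ) - ρ)) *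
          (2 : ℝ) ^ (2 * (ρ : ℝ)) * (2 : ℝ) ^ (-((1 - ε) * t)) *
            (2 : ℝ) ^ (-((1 - ε) * t * q))) := by ring
      _ = _ := by rw [h3]; ring
  rw [e3, e6]
  have e7 : ((ρ + 1 : ℕ) : ℝ) * (2 : ℝ) ^ (-((p - 2) * ρ)) ≤ 1 + 1 / ((p - 2) * Real.log 2) := by
    rw [Real.rpow_neg h2.le, ← div_eq_mul_inv, div_le_iff₀ (by positivity)]
    exact e1
  have e8 : (2 : ℝ) ^ (p * t - (1 - ε) * t - (1 - ε) * t * q) ≤ (2 : ℝ) ^ (-((t : ℝ) / 16)) :=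
    Real.rpow_le_rpow_of_exponent_le (by norm_num) e5
  have e9 : 0 ≤ 1 + 1 / ((p - 2) * Real.log 2) := by
    have : 0 < p - 2 := by linarith
    positivity
  calc C₁ * C₃ * (8 : ℝ) ^ q * (((ρ + 1 : ℕ) : ℝ) * (2 : ℝ) ^ (-((p - 2) * ρ))) *
        (2 : ℝ) ^ (p * t - (1 - ε) * t - (1 - ε) * t * q)
      ≤ C₁ * C₃ * 512 * (1 + 1 / ((p - 2) * Real.log 2)) * (2 : ℝ) ^ (-((t : ℝ) / 16)) := by
        gcongr
    _ = _ := by ring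

/-- the second number -/
theorem FWS_num2 (p C₁ C₄ D : ℝ) (t ρ : ℕ) (hp2 : 2 < p) (hp3 : p < 3) (hC₁ : 0 ≤ C₁)
    (hC₄ : 0 ≤ C₄) (hD : 32 * (t : ℝ) ≤ D) :
    (2 : ℝ) ^ (p * ((t : ℝ) - ρ)) * (C₁ * (2 : ℝ) ^ (-(D / 8)) * C₄) ≤
      C₁ * C₄ * (2 : ℝ) ^ (-((t : ℝ) / 16)) := by
  have h2 : (0 : ℝ) < 2 := by norm_num
  have ht : (0 : ℝ) ≤ t := Nat.cast_nonneg _
  have hρ : (0 : ℝ) ≤ ρ := Nat.cast_nonneg _
  have h3 : (2 : ℝ) ^ (p * ((t : ℝ) - ρ)) * (2 : ℝ) ^ (-(D / 8)) ≤ (2 : ℝ) ^ (-((t : ℝ) / 16)) := by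
    rw [← Real.rpow_add h2]
    refine Real.rpow_le_rpow_of_exponent_le (by norm_num) ?_
    nlinarith [mul_nonneg (by linarith : (0 : ℝ) ≤ p) hρ]
  calc (2 : ℝ) ^ (p * ((t : ℝ) - ρ)) * (C₁ * (2 : ℝ) ^ (-(D / 8)) * C₄)
      = C₁ * C₄ * ((2 : ℝ) ^ (p * ((t : ℝ) - ρ)) * (2 : ℝ) ^ (-(D / 8))) := by ring
    _ ≤ C₁ * C₄ * (2 : ℝ) ^ (-((t : ℝ) / 16)) :=
        mul_le_mul_of_nonneg_left h3 (by positivity)

/-- the sum over the classes -/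
theorem FWS_X (φ τ : ℝ → ℝ) (p : ℝ) (c : Pl) (C₁ C₄ D a b Y : ℝ) (h : ℕ) (g : Pl → ℝ)
    (hC₁ : 0 ≤ C₁) (ha : 0 ≤ a)
    (hgeo : ∑' u : ℕ, ENNReal.ofReal ((2 : ℝ) ^ (-((u : ℝ) / 8))) ≤ ENNReal.ofReal C₄)
    (hb0 : 0 ≤ b) (hC₄ : 0 ≤ C₄)
    (hD : ∀ u : ℕ, D < (u : ℝ) → 2 ≤ u ∧ Y ^ 3 ≤ (2 : ℝ) ^ u)
    (hB : ∑' u : ℕ, (if 2 ≤ u ∧ Y ^ 3 ≤ (2 : ℝ) ^ u then ENNReal.ofReal ((2 : ℝ) ^ (-(p * u))) *
        BU c φ τ Y h u g else 0) ≤ ENNReal.ofReal b * ∫⁻ x, ‖g x‖ₑ ^ 2) :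
    ∑' u : ℕ, ENNReal.ofReal ((2 : ℝ) ^ (-(p * u))) * (if D < (u : ℝ) then
        ENNReal.ofReal a * BU c φ τ Y h u g +
        ENNReal.ofReal (C₁ * (2 : ℝ) ^ (-((u : ℝ) / 4)) * (2 : ℝ) ^ (p * u)) *
          ∫⁻ x, ‖g x‖ₑ ^ 2 else 0) ≤
      ENNReal.ofReal (a * b + C₁ * (2 : ℝ) ^ (-(D / 8)) * C₄) * ∫⁻ x, ‖g x‖ₑ ^ 2 := by
  have h2 : (0 : ℝ) < 2 := by norm_num
  have key : ∀ u : ℕ, ENNReal.ofReal ((2 : ℝ) ^ (-(p * u))) * (if D < (u : ℝ) then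
        ENNReal.ofReal a * BU c φ τ Y h u g +
        ENNReal.ofReal (C₁ * (2 : ℝ) ^ (-((u : ℝ) / 4)) * (2 : ℝ) ^ (p * u)) *
          ∫⁻ x, ‖g x‖ₑ ^ 2 else 0) ≤
      ENNReal.ofReal a * (if 2 ≤ u ∧ Y ^ 3 ≤ (2 : ℝ) ^ u then
        ENNReal.ofReal ((2 : ℝ) ^ (-(p * u))) * BU c φ τ Y h u g else 0) +
      ENNReal.ofReal (C₁ * (2 : ℝ) ^ (-(D / 8))) * (∫⁻ x, ‖g x‖ₑ ^ 2) *
        ENNReal.ofReal ((2 : ℝ) ^ (-((u : ℝ) / 8))) := by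
    intro u
    by_cases hu : D < (u : ℝ)
    · rw [if_pos hu, if_pos (hD u hu), mul_add]
      refine add_le_add (le_of_eq (by ring)) ?_
      have h3 : ENNReal.ofReal ((2 : ℝ) ^ (-(p * u))) *
          ENNReal.ofReal (C₁ * (2 : ℝ) ^ (-((u : ℝ) / 4)) * (2 : ℝ) ^ (p * u)) ≤
          ENNReal.ofReal (C₁ * (2 : ℝ) ^ (-(D / 8))) *
            ENNReal.ofReal ((2 : ℝ) ^ (-((u : ℝ) / 8))) := by
        rw [← ENNReal.ofReal_mul (by positivity), ← ENNReal.ofReal_mul (by positivity)]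
        refine ENNReal.ofReal_le_ofReal ?_
        have h4 : (2 : ℝ) ^ (-(p * u)) * (C₁ * (2 : ℝ) ^ (-((u : ℝ) / 4)) * (2 : ℝ) ^ (p * u)) =
            C₁ * (2 : ℝ) ^ (-((u : ℝ) / 4)) := by
          calc _ = C₁ * (2 : ℝ) ^ (-((u : ℝ) / 4)) *
                ((2 : ℝ) ^ (-(p * u)) * (2 : ℝ) ^ (p * u)) := by ring
            _ = _ := by
                rw [← Real.rpow_add h2, neg_add_cancel, Real.rpow_zero, mul_one]
        rw [h4, mul_assoc, ← Real.rpow_add h2]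
        refine mul_le_mul_of_nonneg_left ?_ hC₁
        refine Real.rpow_le_rpow_of_exponent_le (by norm_num) ?_
        linarith
      calc ENNReal.ofReal ((2 : ℝ) ^ (-(p * u))) *
            (ENNReal.ofReal (C₁ * (2 : ℝ) ^ (-((u : ℝ) / 4)) * (2 : ℝ) ^ (p * u)) *
              ∫⁻ x, ‖g x‖ₑ ^ 2)
          = (ENNReal.ofReal ((2 : ℝ) ^ (-(p * u))) *
            ENNReal.ofReal (C₁ * (2 : ℝ) ^ (-((u : ℝ) / 4)) * (2 : ℝ) ^ (p * u))) *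
              ∫⁻ x, ‖g x‖ₑ ^ 2 := by ring
        _ ≤ (ENNReal.ofReal (C₁ * (2 : ℝ) ^ (-(D / 8))) *
            ENNReal.ofReal ((2 : ℝ) ^ (-((u : ℝ) / 8)))) * ∫⁻ x, ‖g x‖ₑ ^ 2 := by
              gcongr
        _ = _ := by ring
    · rw [if_neg hu, mul_zero]
      exact bot_le
  refine (ENNReal.tsum_le_tsum key).trans ?_
  rw [ENNReal.tsum_add, ENNReal.tsum_mul_left, ENNReal.tsum_mul_left]
  calc ENNReal.ofReal a * (∑' u : ℕ, if 2 ≤ u ∧ Y ^ 3 ≤ (2 : ℝ) ^ u then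
        ENNReal.ofReal ((2 : ℝ) ^ (-(p * u))) * BU c φ τ Y h u g else 0) +
      ENNReal.ofReal (C₁ * (2 : ℝ) ^ (-(D / 8))) * (∫⁻ x, ‖g x‖ₑ ^ 2) *
        ∑' u : ℕ, ENNReal.ofReal ((2 : ℝ) ^ (-((u : ℝ) / 8)))
      ≤ ENNReal.ofReal a * (ENNReal.ofReal b * ∫⁻ x, ‖g x‖ₑ ^ 2) +
        ENNReal.ofReal (C₁ * (2 : ℝ) ^ (-(D / 8))) * (∫⁻ x, ‖g x‖ₑ ^ 2) *
          ENNReal.ofReal C₄ := by gcongr
    _ = (ENNReal.ofReal a * ENNReal.ofReal b +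
        ENNReal.ofReal (C₁ * (2 : ℝ) ^ (-(D / 8))) * ENNReal.ofReal C₄) *
          ∫⁻ x, ‖g x‖ₑ ^ 2 := by ring
    _ = _ := by
        rw [← ENNReal.ofReal_mul ha, ← ENNReal.ofReal_mul (by positivity),
          ← ENNReal.ofReal_add (by positivity) (by positivity)]

theorem hFWS (hFWC : StFWC) (hGDL : StGDL) (hRIX : StRIX) (hBUN : StBUN) : StFWS := by
  intro φ τ A p c hG hA hgap hp2 hp3 ε δ Cρ hε hε2 hδ
  obtain ⟨C₁, C₂, hC₁, hC₂, hF⟩ := hFWC φ τ A p c hG hA hgap (by linarith) hp3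
  obtain ⟨C₃, hC₃, hBN⟩ := hBUN φ τ A p c hG hA hgap (by linarith) 10000
  obtain ⟨C₄, hC₄, hgeo⟩ := FWS_geo
  obtain ⟨hL1, hL2, hL3⟩ := hGDL
  obtain ⟨t₀, ht₀, hthr⟩ := FWS_thr (32 + (C₂ : ℝ) * (2 + Cρ)) δ hδ
  have h2 : (0 : ℝ) < 2 := by norm_num
  have hp20 : 0 < p - 2 := by linarith
  have hlog : 0 < Real.log 2 := Real.log_pos (by norm_num)
  have hC₁0 : 0 ≤ C₁ := by linarith
  obtain ⟨CA, hCA⟩ : ∃ CA, CA = 512 * C₁ * C₃ * (1 + 1 / ((p - 2) * Real.log 2)) := ⟨_, rfl⟩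
  have hCA0 : 0 ≤ CA := by rw [hCA]; positivity
  have hCB0 : 0 ≤ C₁ * C₄ := by positivity
  refine ⟨2 * C₁ + CA + C₁ * C₄, t₀, by linarith, ?_⟩
  intro R₀ t ρ f hR₀ ht hρ hf hf0
  have ht5 : 5 ≤ t := ht₀.trans ht
  have ht5' : (5 : ℝ) ≤ t := by exact_mod_cast ht5
  have hD := hthr t ht
  have hρ' : (ρ : ℝ) ≤ Cρ * t := by exact_mod_cast hρ
  have hC₂' : (1 : ℝ) ≤ C₂ := by exact_mod_cast hC₂
  have hCρ0 : (0 : ℝ) ≤ Cρ := Nat.cast_nonneg _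
  obtain ⟨D, hDD⟩ : ∃ D, D = (2 : ℝ) ^ (δ * t) := ⟨_, rfl⟩
  obtain ⟨m, hm⟩ : ∃ m, m = (2 : ℝ) ^ ((1 - ε) * t) := ⟨_, rfl⟩
  rw [← hDD] at hD
  have hD32 : 32 * (t : ℝ) ≤ D := by
    have : 0 ≤ (C₂ : ℝ) * (2 + Cρ) * t := by positivity
    nlinarith
  have hDC : (C₂ : ℝ) * (t + ρ + 1) ≤ D := by
    have h3 : (t : ℝ) + ρ + 1 ≤ (2 + Cρ) * t := by nlinarith
    have h4 : (C₂ : ℝ) * (t + ρ + 1) ≤ C₂ * ((2 + Cρ) * t) :=
      mul_le_mul_of_nonneg_left h3 (by linarith)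
    nlinarith
  have hm16 : 16 ≤ m := by
    rw [hm]
    calc (16 : ℝ) = (2 : ℝ) ^ (4 : ℝ) := by
          rw [show (4 : ℝ) = ((4 : ℕ) : ℝ) by norm_num, Real.rpow_natCast]
          norm_num
      _ ≤ (2 : ℝ) ^ ((1 - ε) * t) :=
          Real.rpow_le_rpow_of_exponent_le (by norm_num) (by nlinarith)
  have hm0 : 0 < m := by linarith
  -- conditions for the classes
  have hcl : ∀ u : ℕ, D < (u : ℝ) → 2 ≤ u ∧ (m / 8) ^ 3 ≤ (2 : ℝ) ^ u := by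
    intro u hu
    constructor
    · have : (2 : ℝ) ≤ u := by linarith
      exact_mod_cast this
    · have h3 : m / 8 ≤ (2 : ℝ) ^ (t : ℝ) := by
        have h4 : m ≤ (2 : ℝ) ^ (t : ℝ) := by
          rw [hm]
          exact Real.rpow_le_rpow_of_exponent_le (by norm_num) (by nlinarith)
        linarith
      calc (m / 8) ^ 3 ≤ ((2 : ℝ) ^ (t : ℝ)) ^ 3 := pow_le_pow_left₀ (by positivity) h3 3
        _ = (2 : ℝ) ^ (3 * t) := by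
            rw [Real.rpow_natCast, ← pow_mul]
            congr 1
            ring
        _ ≤ (2 : ℝ) ^ u := by
            refine pow_le_pow_right₀ (by norm_num) ?_
            have : (3 : ℝ) * t ≤ u := by linarith
            exact_mod_cast this
  obtain ⟨B, hBB⟩ : ∃ B, B = C₁ * (4 : ℝ) ^ ρ / m *
    (C₃ * ((ρ + 1 : ℕ) : ℝ) * (m / 8) ^ (-(p ^ 2 / (p + 1)))) + C₁ * (2 : ℝ) ^ (-(D / 8)) * C₄ :=
    ⟨_, rfl⟩
  have hB0 : 0 ≤ B := by rw [hBB]; positivity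
  have hX := hRIX p B (fun u g => if D < (u : ℝ) then
        ENNReal.ofReal (C₁ * (4 : ℝ) ^ ρ / m) * BU c φ τ (m / 8) (ρ + 1) u g +
        ENNReal.ofReal (C₁ * (2 : ℝ) ^ (-((u : ℝ) / 4)) * (2 : ℝ) ^ (p * u)) *
          ∫⁻ x, ‖g x‖ₑ ^ 2 else 0) (by linarith) hB0 (by
      intro g hg hg01
      have h3 := hBN (m / 8) (ρ + 1) g (by linarith) (by omega) hg
      have h4 := FWS_X φ τ p c C₁ C₄ D (C₁ * (4 : ℝ) ^ ρ / m)
        (C₃ * ((ρ + 1 : ℕ) : ℝ) * (m / 8) ^ (-(p ^ 2 / (p + 1)))) (m / 8) (ρ + 1) g hC₁0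
        (by positivity) hgeo (by positivity) hC₄ hcl h3
      rw [← hBB] at h4
      exact h4) f (t : ℤ) ρ hf hf0
  rw [← hDD, ← hm]
  refine le_trans ?_ (hX.trans ?_)
  · refine ENNReal.tsum_le_tsum fun l => ?_
    gcongr with u
    by_cases hu : D < (u : ℝ)
    · simp only [if_pos hu]
      obtain ⟨h3, h4⟩ := hL1 f (l - (t : ℤ) + u + ρ) hf hf0
      have hu2 : C₂ * (t + ρ + 1) ≤ u := by
        have : (C₂ : ℝ) * (t + ρ + 1) ≤ u := hDC.trans hu.le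
        exact_mod_cast this
      refine hF u t ρ m (lev f (l - (t : ℤ) + u + ρ)) {x | Gd R₀ l f x} hu2 hm16 h3 h4 ?_
      intro x hx
      have h5 := hL2 C₁ R₀ f l (l - (t : ℤ) + u + ρ) x hC₁ (by linarith) hf hf0 hx
      rw [show l - (l - (t : ℤ) + u + ρ) = (t : ℤ) - u - ρ by ring] at h5
      exact h5
    · simp only [if_neg hu, le_refl]
  · refine mul_le_mul_left (ENNReal.ofReal_le_ofReal ?_) _
    have h3 := FWS_num1 p ε C₁ C₃ t ρ hp2 hp3 hε2 hC₁0 hC₃.le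
    have h4 := FWS_num2 p C₁ C₄ D t ρ hp2 hp3 hC₁0 hC₄ hD32
    rw [← hm, ← hCA] at h3
    rw [hBB, mul_add]
    have h5 : 0 < (2 : ℝ) ^ (-((t : ℝ) / 16)) := by positivity
    have h6 : 0 ≤ 2 * C₁ * (2 : ℝ) ^ (-((t : ℝ) / 16)) := by positivity
    push_cast at h3 h4 ⊢
    linarith

end Pool.Agent.Helper64.EQ
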