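import Pool.Agent.Helper20.EQ.St2
import Pool.Agent.Helper33.RG.M_FAM

/-!
# Project EQ (MP_cb927e_an), module LBC: local Bessel inequality in a cell
-/

set_option autoImplicit false

open MeasureTheory Set Filter Topology
open scoped ENNReal RealInnerProductSpace

namespace Pool.Agent.Helper64.EQ

open Pool.Agent.Helper68.LM (Pl BB Bd Av HL ft fm DQ)
open Pool.Agent.Helper20.RG Pool.Agent.Helper20.EQ

theorem LBC_sg (s : ℝ) : ∀ᵐ v ∂(sg s), ∃ t : ℝ, |t| ≤ 1 / 2 ∧ t • E s = v := by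
  have hc : Continuous (fun t : ℝ => t • E s) := by fun_prop
  have hm : MeasurableSet ((fun t : ℝ => t • E s) '' Icc (-(1 / 2) : ℝ) (1 / 2)) :=
    (isCompact_Icc.image hc).isClosed.measurableSet
  have h : ∀ᵐ v ∂(sg s), v ∈ (fun t : ℝ => t • E s) '' Icc (-(1 / 2) : ℝ) (1 / 2) := by
    unfold sg
    refine (ae_map_iff hc.measurable.aemeasurable hm).2 ?_
    filter_upwards [ae_restrict_mem measurableSet_Icc] with t ht
    exact ⟨t, ht, rfl⟩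
  filter_upwards [h] with v hv
  obtain ⟨t, ht, rfl⟩ := hv
  exact ⟨t, abs_le.2 ⟨ht.1, ht.2⟩, rfl⟩

/-- the points used by `Y` lie in the larger cell -/
theorem LBC_mem (s s' : ℝ) (c ca x y : Pl) (k : ℤ) (A m : ℕ) (t : ℝ) (w : Pl) (hs : |s| ≤ 1)
    (hss : |s' - s| ≤ (2 : ℝ) ^ (-(A : ℤ))) (hm : A ≤ m) (hc0 : |(ca - c) 0| ≤ 1)
    (hc1 : |pr s (ca - c)| ≤ (2 : ℝ) ^ (-(A : ℤ))) (ht : |t| ≤ 1 / 2) (hw : w ∈ Sq 0 (1 / 2))
    (hy : y ∈ Cel s 2 2 k A x) :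
    y - (2 : ℝ) ^ k • c - ((2 : ℝ) ^ k * (2 : ℝ) ^ 0) • (t • E s') -
      (2 * (2 : ℝ) ^ (k - (m : ℤ))) • w ∈ Cel s 8 12 k A (x - (2 : ℝ) ^ k • ca) := by
  obtain ⟨hw0, hw1⟩ := hw
  obtain ⟨hy0, hy1⟩ := hy
  have e0 : (E s') 0 = 1 := by simp [E, pt]
  have e1 : (E s') 1 = s' := by simp [E, pt]
  have hP : (0 : ℝ) < (2 : ℝ) ^ k := by positivity
  have ha : (0 : ℝ) < (2 : ℝ) ^ (-(A : ℤ)) := by positivity
  have hr : (0 : ℝ) < (2 : ℝ) ^ (k - (m : ℤ)) := by positivity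
  have hQ : (2 : ℝ) ^ (k - (A : ℤ)) = (2 : ℝ) ^ k * (2 : ℝ) ^ (-(A : ℤ)) := by
    rw [← zpow_add₀ (by norm_num : (2 : ℝ) ≠ 0)]
    rfl
  have ha1 : (2 : ℝ) ^ (-(A : ℤ)) ≤ 1 := by
    rw [zpow_neg, zpow_natCast]
    exact inv_le_one_of_one_le₀ (one_le_pow₀ (by norm_num))
  have hrQ : (2 : ℝ) ^ (k - (m : ℤ)) ≤ (2 : ℝ) ^ k * (2 : ℝ) ^ (-(A : ℤ)) := by
    rw [← hQ]
    exact zpow_le_zpow_right₀ (by norm_num) (by omega)
  have hz0 : (0 : Pl) 0 = 0 := rfl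
  have hz1 : (0 : Pl) 1 = 0 := rfl
  rw [hz0, sub_zero] at hw0
  rw [hz1, sub_zero] at hw1
  rw [PiLp.sub_apply] at hc0
  unfold pr at hc1 hy1
  rw [PiLp.sub_apply, PiLp.sub_apply] at hc1 hy1
  rw [hQ] at hy1
  unfold Cel
  rw [hQ]
  simp only [Set.mem_ofPred_eq, pr, PiLp.sub_apply, PiLp.smul_apply, smul_eq_mul, e0, e1, pow_zero,
    mul_one]
  generalize (2 : ℝ) ^ k = P at *
  generalize (2 : ℝ) ^ (-(A : ℤ)) = a at *
  generalize (2 : ℝ) ^ (k - (m : ℤ)) = r at *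
  have hPa : 0 < P * a := mul_pos hP ha
  have hPaP : P * a ≤ P := by nlinarith
  -- the four terms of the first coordinate
  have b1 : |P * (ca 0 - c 0)| ≤ P := by
    rw [abs_mul, abs_of_pos hP]
    nlinarith
  have b2 : |P * t| ≤ P / 2 := by
    rw [abs_mul, abs_of_pos hP]
    nlinarith
  have b3 : |2 * r * w 0| ≤ r := by
    rw [abs_mul, abs_of_pos (by linarith)]
    nlinarith
  -- the four terms of `pr s`
  have d1 : |P * (ca 1 - c 1 - s * (ca 0 - c 0))| ≤ P * a := by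
    rw [abs_mul, abs_of_pos hP]
    exact mul_le_mul_of_nonneg_left hc1 hP.le
  have d2 : |P * t * (s' - s)| ≤ P * a / 2 := by
    rw [abs_mul]
    calc |P * t| * |s' - s| ≤ P / 2 * a :=
          mul_le_mul b2 hss (abs_nonneg _) (by linarith)
      _ = P * a / 2 := by ring
  have d3 : |2 * r * (w 1 - s * w 0)| ≤ 2 * r := by
    rw [abs_mul, abs_of_pos (by linarith : (0 : ℝ) < 2 * r)]
    have : |w 1 - s * w 0| ≤ 1 := by
      have h1 : |w 1 - s * w 0| ≤ |w 1| + |s * w 0| := abs_sub _ _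
      have h2 : |s * w 0| ≤ 1 * (1 / 2) := by
        rw [abs_mul]
        exact mul_le_mul hs hw0 (abs_nonneg _) (by norm_num)
      linarith
    nlinarith
  rw [abs_le] at hy0 hy1 b1 b2 b3 d1 d2 d3
  constructor
  · rw [show y 0 - P * c 0 - P * t - 2 * r * w 0 - (x 0 - P * ca 0) =
        (y 0 - x 0) + P * (ca 0 - c 0) - P * t - 2 * r * w 0 by ring, abs_le]
    constructor <;> linarith
  · rw [show y 1 - P * c 1 - P * (t * s') - 2 * r * w 1 - (x 1 - P * ca 1) -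
        s * (y 0 - P * c 0 - P * t - 2 * r * w 0 - (x 0 - P * ca 0)) =
        (y 1 - x 1 - s * (y 0 - x 0)) + P * (ca 1 - c 1 - s * (ca 0 - c 0)) -
          P * t * (s' - s) - 2 * r * (w 1 - s * w 0) by ring, abs_le]
    constructor <;> linarith

theorem LBC_Y (hPT : StPT) (s s' : ℝ) (c ca x y : Pl) (k : ℤ) (A m : ℕ) (g : Pl → ℝ)
    (hs : |s| ≤ 1) (hss : |s' - s| ≤ (2 : ℝ) ^ (-(A : ℤ))) (hm : A ≤ m) (hc0 : |(ca - c) 0| ≤ 1)
    (hc1 : |pr s (ca - c)| ≤ (2 : ℝ) ^ (-(A : ℤ))) (hy : y ∈ Cel s 2 2 k A x) :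
    Y s' c m ((2 : ℝ) ^ 0) k g y =
      Y s' c m ((2 : ℝ) ^ 0) k ((Cel s 8 12 k A (x - (2 : ℝ) ^ k • ca)).indicator g) y := by
  obtain ⟨-, -, -, -, -, -, -, hSq⟩ := hPT
  have hSm := (hSq (0 : Pl) (1 / 2) (by norm_num)).1
  unfold Y Av
  refine integral_congr_ae ?_
  filter_upwards [LBC_sg s'] with v hv
  obtain ⟨t, ht, rfl⟩ := hv
  unfold bx
  refine setIntegral_congr_fun hSm fun w hw => ?_
  exact (indicator_of_mem (LBC_mem s s' c ca x y k A m t w hs hss hm hc0 hc1 ht hw hy) g).symm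

theorem LBC_ind (G : Set Pl) (g : Pl → ℝ) (hg : BB g) (hG : MeasurableSet G) :
    BB (G.indicator g) := by
  obtain ⟨hm, K, hK, hs⟩ := hg
  have hK0 : 0 ≤ K := (abs_nonneg _).trans (hK 0)
  refine ⟨hm.indicator hG, K, fun y => ?_, fun y hy => ?_⟩
  · by_cases h : y ∈ G
    · rw [indicator_of_mem h]; exact hK y
    · rw [indicator_of_notMem h, abs_zero]; exact hK0
  · by_cases h : y ∈ G
    · rw [indicator_of_mem h]; exact hs y hy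
    · rw [indicator_of_notMem h]

theorem LBC_Pso (s : ℝ) (m m' : ℕ) (ξ : Pl) : 0 ≤ Pso s m m' ξ ∧ Pso s m m' ξ ≤ 1 := by
  unfold Pso
  have a1 : 0 ≤ min 1 (‖ξ‖ * (2 : ℝ) ^ (-(m' : ℤ))) := le_min zero_le_one (by positivity)
  have a2 : 0 ≤ min 1 ((2 : ℝ) ^ m / ‖ξ‖) := le_min zero_le_one (by positivity)
  have a3 : 0 ≤ 1 / (1 + |⟪E s, ξ⟫|) := by positivity
  have b1 : min 1 (‖ξ‖ * (2 : ℝ) ^ (-(m' : ℤ))) ≤ 1 := min_le_left _ _
  have b2 : min 1 ((2 : ℝ) ^ m / ‖ξ‖) ≤ 1 := min_le_left _ _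
  have b3 : 1 / (1 + |⟪E s, ξ⟫|) ≤ 1 := by
    rw [div_le_one (by positivity)]
    linarith [abs_nonneg ⟪E s, ξ⟫]
  exact ⟨by positivity, mul_le_one₀ (mul_le_one₀ b1 a2 b2) a3 b3⟩

theorem hLBC (hPT : StPT) (hYB : StYB) (hKD : StKD) (hPSM : StPSM) (hL2B : StL2B)
    (hCEF : StCEF) : StLBC := by
  intro C₀ hC₀
  obtain ⟨C₁, hC₁, hK1, -⟩ := hKD
  obtain ⟨C₂, hC₂, hK2⟩ := hPSM C₀ hC₀
  refine ⟨C₁ ^ 2 * C₂, by positivity, ?_⟩
  intro u s' c' m m' R K A₁ σ hSys s ca x k A g' hs hg'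
  have hk0 : (2 : ℝ) ^ k ≠ 0 := by positivity
  have hGm : MeasurableSet (Cel s 8 12 k A (x - (2 : ℝ) ^ k • ca)) :=
    (hCEF s 8 12 k A _ hs (by norm_num) (by norm_num)).1
  have hCm : MeasurableSet (Cel s 2 2 k A x) :=
    (hCEF s 2 2 k A _ hs (by norm_num) (by norm_num)).1
  have hBB := LBC_ind _ _ hg' hGm
  -- the right side
  have hR : ∫⁻ y in Cel s 8 12 k A (x - (2 : ℝ) ^ k • ca), ‖g' y‖ₑ ^ 2 =
      ∫⁻ y, ‖(Cel s 8 12 k A (x - (2 : ℝ) ^ k • ca)).indicator g' y‖ₑ ^ 2 := by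
    rw [← lintegral_indicator hGm]
    refine lintegral_congr fun y => ?_
    by_cases h : y ∈ Cel s 8 12 k A (x - (2 : ℝ) ^ k • ca)
    · rw [indicator_of_mem h, indicator_of_mem h]
    · rw [indicator_of_notMem h, indicator_of_notMem h]
      simp
  rw [hR]
  refine le_trans ?_ (hL2B.2 (2 ^ u)
    (fun b => Z (s' b) (c' b) (m b) (m' b) ((2 : ℝ) ^ 0) k
      ((Cel s 8 12 k A (x - (2 : ℝ) ^ k • ca)).indicator g'))
    (fun b ξ => Zh (s' b) (c' b) (m b) (m' b) ((2 : ℝ) ^ 0) ((2 : ℝ) ^ k • ξ))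
    ((Cel s 8 12 k A (x - (2 : ℝ) ^ k • ca)).indicator g') (C₁ ^ 2 * C₂) hBB (by positivity)
    ?_ ?_)
  · refine le_trans (Finset.sum_le_sum fun b hb => ?_)
      (Finset.sum_le_sum_of_subset (Finset.filter_subset _ _))
    obtain ⟨hb0, hb1, hb2, hb3, hb4⟩ := Finset.mem_filter.1 hb
    refine le_trans (le_of_eq ?_) (setLIntegral_le_lintegral (Cel s 2 2 k A x) _)
    refine setLIntegral_congr_fun hCm fun y hy => ?_
    have hmm := hSys.mm b (Finset.mem_range.1 hb0)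
    simp only [Z]
    rw [← LBC_Y hPT s (s' b) (c' b) ca x y k A (m b) g' hs hb1 (hb2.trans hmm.1) hb3 hb4 hy,
      ← LBC_Y hPT s (s' b) (c' b) ca x y k A (m' b) g' hs hb1 hb2 hb3 hb4 hy]
  · intro j hj
    exact Pool.Agent.Helper33.RG.z_ft hYB (s' j) (c' j) (m j) (m' j) ((2 : ℝ) ^ 0) k _
      (hSys.slope j hj) (by norm_num) hBB
  · intro ξ hξ
    have hξ' : (2 : ℝ) ^ k • ξ ≠ 0 := smul_ne_zero hk0 hξ
    refine le_trans (Finset.sum_le_sum (g := fun j => C₁ ^ 2 *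
      Pso (s' j) (m j) (m' j) ((2 : ℝ) ^ k • ξ)) fun j hj => ?_) ?_
    · have h1 := hK1 (s' j) (c' j) (m j) (m' j) ((2 : ℝ) ^ 0) ((2 : ℝ) ^ k • ξ)
        (hSys.mm j (Finset.mem_range.1 hj)).1 (by norm_num) hξ'
      obtain ⟨p0, p1⟩ := LBC_Pso (s' j) (m j) (m' j) ((2 : ℝ) ^ k • ξ)
      calc ‖Zh (s' j) (c' j) (m j) (m' j) ((2 : ℝ) ^ 0) ((2 : ℝ) ^ k • ξ)‖ ^ 2
          ≤ (C₁ * Pso (s' j) (m j) (m' j) ((2 : ℝ) ^ k • ξ)) ^ 2 :=
            pow_le_pow_left₀ (norm_nonneg _) h1 2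
        _ = C₁ ^ 2 * (Pso (s' j) (m j) (m' j) ((2 : ℝ) ^ k • ξ) *
            Pso (s' j) (m j) (m' j) ((2 : ℝ) ^ k • ξ)) := by ring
        _ ≤ C₁ ^ 2 * Pso (s' j) (m j) (m' j) ((2 : ℝ) ^ k • ξ) := by
            refine mul_le_mul_of_nonneg_left ?_ (by positivity)
            exact mul_le_of_le_one_right p0 p1
    · rw [← Finset.mul_sum]
      exact mul_le_mul_of_nonneg_left
        (hK2 u s' c' m m' R K A₁ σ hSys ((2 : ℝ) ^ k • ξ) hξ') (by positivity)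

end Pool.Agent.Helper64.EQ
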